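import Mathlib

/-!
Elementary geometry of points near one or two lines.
-/

namespace Pool.Agent.MP_a382a5_co

variable {V : Type*} [NormedAddCommGroup V] [InnerProductSpace ℝ V]

/-- the component of `c - p` orthogonal to the unit vector `v` -/
def off (p v c : V) : V := (c - p) - (inner ℝ v (c - p)) • v

lemma inner_off {v : V} (hv : ‖v‖ = 1) (p c : V) : inner ℝ v (off p v c) = 0 := by
  rw [off, inner_sub_right, inner_smul_right, real_inner_self_eq_norm_sq, hv]; ring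

lemma off_sub (p v a b : V) : off p v b - off p v a = (b - a) - (inner ℝ v (b - a)) • v := by
  simp only [off, inner_sub_right, sub_smul]; abel

lemma norm_perp_sq {v : V} (hv : ‖v‖ = 1) (e : V) :
    ‖e - (inner ℝ v e) • v‖ ^ 2 = ‖e‖ ^ 2 - (inner ℝ v e) ^ 2 := by
  rw [norm_sub_sq_real, inner_smul_right, norm_smul, hv, real_inner_comm, Real.norm_eq_abs,
    mul_one, sq_abs]
  ring

lemma normsq_sub {v : V} (hv : ‖v‖ = 1) (p a b : V) :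
    ‖b - a‖ ^ 2 = (inner ℝ v (b - a)) ^ 2 + ‖off p v b - off p v a‖ ^ 2 := by
  rw [off_sub, norm_perp_sq hv]; ring

lemma norm_off_le {v : V} (hv : ‖v‖ = 1) (p c : V) (t : ℝ) : ‖off p v c‖ ≤ ‖p + t • v - c‖ := by
  have h1 := normsq_sub hv p c (p + t • v)
  have h2 : off p v (p + t • v) = 0 := by
    simp [off, inner_smul_right, hv]
  rw [h2, zero_sub, norm_neg] at h1
  exact abs_le_abs (by nlinarith [norm_nonneg (off p v c), norm_nonneg (p + t • v - c), sq_nonneg (inner ℝ v (p + t • v - c))]) (by linarith [norm_nonneg (off p v c), norm_nonneg (p + t • v - c)]) |>.trans' (le_abs_self _) |>.trans (abs_of_nonneg (norm_nonneg _)).le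

lemma off_neg (p v c : V) : off p (-v) c = off p v c := by simp [off]

lemma vec_gap {x y : V} (hx : ‖x‖ ≤ 1) (hy : ‖y‖ ≤ 1) {g : ℝ} (h : 4 < g ^ 2 + ‖y - x‖ ^ 2) :
    ‖x + y‖ ^ 2 + 2 * |inner ℝ (x - y) (x + y)| < g ^ 2 := by
  have h1 : inner ℝ (x - y) (x + y) = ‖x‖ ^ 2 - ‖y‖ ^ 2 := by
    rw [inner_sub_left, inner_add_right, inner_add_right, real_inner_self_eq_norm_sq,
      real_inner_self_eq_norm_sq, real_inner_comm x y]; ring
  have h2 := norm_add_sq_real x y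
  have h3 := norm_sub_sq_real y x
  rw [real_inner_comm] at h3
  have hx2 : ‖x‖ ^ 2 ≤ 1 := by nlinarith [norm_nonneg x]
  have hy2 : ‖y‖ ^ 2 ≤ 1 := by nlinarith [norm_nonneg y]
  rw [h1]
  rcases abs_cases (‖x‖ ^ 2 - ‖y‖ ^ 2) with h4 | h4 <;> nlinarith [h4.1]

lemma vec_gap' {x y : V} (hx : ‖x‖ ≤ 1) (hy : ‖y‖ ≤ 1) {g : ℝ} (hg : 0 ≤ g)
    (h : 4 < g ^ 2 + ‖y - x‖ ^ 2) : ‖x + y‖ < g := by
  have := vec_gap hx hy h
  have h2 := abs_nonneg (inner ℝ (x - y) (x + y))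
  exact lt_of_pow_lt_pow_left₀ 2 hg (by linarith)

lemma vec_triple {x y z : V} (hx : ‖x‖ ≤ 1) (hy : ‖y‖ ≤ 1) (hz : ‖z‖ ≤ 1) {g₁ g₂ : ℝ}
    (hg₁ : 0 ≤ g₁) (hg₂ : 0 ≤ g₂) (h₁ : 4 < g₁ ^ 2 + ‖y - x‖ ^ 2) (h₂ : 4 < g₂ ^ 2 + ‖z - y‖ ^ 2)
    (h₃ : 4 < (g₁ + g₂) ^ 2 + ‖z - x‖ ^ 2) : 7 / 5 < g₁ + g₂ := by
  have a1 := vec_gap' hx hy hg₁ h₁
  have a2 := vec_gap' hy hz hg₂ h₂
  have a3 : ‖z - x‖ ≤ ‖y + z‖ + ‖x + y‖ := by
    calc ‖z - x‖ = ‖(y + z) - (x + y)‖ := by congr 1; abel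
      _ ≤ _ := norm_sub_le _ _
  have a4 : ‖z - x‖ ≤ g₁ + g₂ := by linarith
  by_contra hc
  push Not at hc
  nlinarith [norm_nonneg (z - x)]

lemma vec_four {x y z t : V} (hx : ‖x‖ ≤ 1) (hy : ‖y‖ ≤ 1) (hz : ‖z‖ ≤ 1) (ht : ‖t‖ ≤ 1)
    {g₁ g₂ g₃ : ℝ} (hg₁ : 0 ≤ g₁) (hg₂ : 0 ≤ g₂) (hg₃ : 0 ≤ g₃)
    (h₁ : 4 < g₁ ^ 2 + ‖y - x‖ ^ 2) (h₃ : 4 < g₃ ^ 2 + ‖t - z‖ ^ 2)
    (h₁₂ : 7 / 5 < g₁ + g₂) (h₂₃ : 7 / 5 < g₂ + g₃) :
    g₂ ^ 2 + ‖z - y‖ ^ 2 < (g₁ + g₂ + g₃) ^ 2 + ‖t - x‖ ^ 2 := by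
  rcases le_total g₂ (13 / 20) with hc | hc
  · have a1 : ‖z - y‖ ≤ 2 := (norm_sub_le _ _).trans (by linarith)
    have a2 : 43 / 20 ≤ g₁ + g₂ + g₃ := by linarith
    nlinarith [norm_nonneg (z - y), sq_nonneg ‖t - x‖]
  · have a1 := vec_gap hx hy h₁
    have a3 := vec_gap ht hz (g := g₃) (by rwa [norm_sub_rev])
    have b1 := vec_gap' hx hy hg₁ h₁
    have b3 := vec_gap' ht hz hg₃ (by rwa [norm_sub_rev])
    have id1 : ‖t - x‖ ^ 2 - ‖z - y‖ ^ 2 = inner ℝ (x - y) (x + y) + inner ℝ (t - z) (t + z)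
        - inner ℝ (x - y) (t + z) - inner ℝ (t - z) (x + y) := by
      simp only [← real_inner_self_eq_norm_sq, inner_sub_left, inner_sub_right, inner_add_right,
        real_inner_comm]
      ring
    have c1 : inner ℝ (x - y) (t + z) ≤ 2 * g₃ := by
      refine (real_inner_le_norm _ _).trans ?_
      exact mul_le_mul ((norm_sub_le _ _).trans (by linarith)) b3.le (norm_nonneg _) (by norm_num)
    have c3 : inner ℝ (t - z) (x + y) ≤ 2 * g₁ := by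
      refine (real_inner_le_norm _ _).trans ?_
      exact mul_le_mul ((norm_sub_le _ _).trans (by linarith)) b1.le (norm_nonneg _) (by norm_num)
    have d1 := neg_abs_le (inner ℝ (x - y) (x + y))
    have d3 := neg_abs_le (inner ℝ (t - z) (t + z))
    have hG : 0 < g₁ := lt_of_le_of_lt (norm_nonneg _) b1
    have e1 : 0 < (g₁ + g₃) * ((g₁ + g₃) / 4 + g₂ - 1) := mul_pos (by linarith) (by linarith)
    nlinarith [sq_nonneg ‖x + y‖, sq_nonneg ‖t + z‖, mul_nonneg hg₁ hg₃]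

/-- the points of `S` are pairwise more than 2 apart -/
def Sep (S : Finset V) : Prop := ∀ x ∈ S, ∀ y ∈ S, x ≠ y → 2 < dist x y

lemma sep_sq {v : V} (hv : ‖v‖ = 1) (p : V) {a b : V} (h : 2 < dist a b) :
    4 < (inner ℝ v (b - a)) ^ 2 + ‖off p v b - off p v a‖ ^ 2 := by
  rw [← normsq_sub hv, ← dist_eq_norm, dist_comm]; nlinarith

lemma inner_ne_zero {v p a b : V} (hv : ‖v‖ = 1) (ha : ‖off p v a‖ ≤ 1) (hb : ‖off p v b‖ ≤ 1)
    (h : 2 < dist a b) : inner ℝ v (b - a) ≠ 0 := by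
  intro h0
  have := vec_gap' ha hb (g := 0) le_rfl (by simpa [h0] using sep_sq hv p h)
  linarith [norm_nonneg (off p v a + off p v b)]

lemma triple {v p a b c : V} (hv : ‖v‖ = 1) (ha : ‖off p v a‖ ≤ 1) (hb : ‖off p v b‖ ≤ 1)
    (hc : ‖off p v c‖ ≤ 1) (hab : 2 < dist a b) (hbc : 2 < dist b c) (hac : 2 < dist a c)
    (h₁ : 0 ≤ inner ℝ v (b - a)) (h₂ : 0 ≤ inner ℝ v (c - b)) : 7 / 5 < inner ℝ v (c - a) := by
  have e : inner ℝ v (c - a) = inner ℝ v (b - a) + inner ℝ v (c - b) := by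
    simp only [inner_sub_right]; ring
  rw [e]
  exact vec_triple ha hb hc h₁ h₂ (sep_sq hv p hab) (sep_sq hv p hbc) (e ▸ sep_sq hv p hac)

lemma four {v p a b c d : V} (hv : ‖v‖ = 1) (ha : ‖off p v a‖ ≤ 1) (hb : ‖off p v b‖ ≤ 1)
    (hc : ‖off p v c‖ ≤ 1) (hd : ‖off p v d‖ ≤ 1) (hab : 2 < dist a b) (hbc : 2 < dist b c)
    (hac : 2 < dist a c) (hbd : 2 < dist b d) (hcd : 2 < dist c d)
    (h₁ : 0 ≤ inner ℝ v (b - a)) (h₂ : 0 ≤ inner ℝ v (c - b)) (h₃ : 0 ≤ inner ℝ v (d - c)) :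
    ‖c - b‖ ^ 2 < ‖d - a‖ ^ 2 := by
  have t1 := triple hv ha hb hc hab hbc hac h₁ h₂
  have t2 := triple hv hb hc hd hbc hcd hbd h₂ h₃
  have e : inner ℝ v (d - a) = inner ℝ v (b - a) + inner ℝ v (c - b) + inner ℝ v (d - c) := by
    simp only [inner_sub_right]; ring
  rw [normsq_sub hv p b c, normsq_sub hv p a d, e]
  refine vec_four ha hb hc hd h₁ h₂ h₃ (sep_sq hv p hab) (sep_sq hv p hcd) ?_ ?_
  · simp only [inner_sub_right] at t1 ⊢; linarith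
  · simp only [inner_sub_right] at t2 ⊢; linarith

lemma two_lines {v w : V} (hv : ‖v‖ = 1) (hw : ‖w‖ = 1) (e : V) :
    (inner ℝ v e - inner ℝ v w * inner ℝ w e) ^ 2 ≤
      (1 - (inner ℝ v w) ^ 2) * ‖e - (inner ℝ w e) • w‖ ^ 2 := by
  have h1 : inner ℝ (v - (inner ℝ w v) • w) (e - (inner ℝ w e) • w) =
      inner ℝ v e - inner ℝ v w * inner ℝ w e := by
    simp only [inner_sub_left, inner_sub_right, inner_smul_left, inner_smul_right,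
      real_inner_self_eq_norm_sq, hw, real_inner_comm v w, conj_trivial]
    ring
  have h2 : ‖v - (inner ℝ w v) • w‖ ^ 2 = 1 - (inner ℝ v w) ^ 2 := by
    rw [norm_perp_sq hw, hv, real_inner_comm]; ring
  rw [← h1, ← h2, ← mul_pow, ← sq_abs]
  exact pow_le_pow_left₀ (abs_nonneg _) (abs_real_inner_le_norm _ _) 2

lemma rev_bound {v w : V} (hv : ‖v‖ = 1) (hw : ‖w‖ = 1) (hγ : 21 / 29 ≤ inner ℝ v w) (e : V)
    {ρ σ : ℝ} (h₁ : ‖e - (inner ℝ v e) • v‖ ≤ ρ) (h₂ : ‖e - (inner ℝ w e) • w‖ ≤ σ) :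
    inner ℝ v e - inner ℝ w e ≤ 2 / 5 * (ρ + σ) := by
  have a1 := two_lines hv hw e
  have a2 := two_lines hw hv e
  rw [real_inner_comm v w] at a2
  set γ := inner ℝ v w
  have hγ1 : γ ≤ 1 := by simpa [hv, hw] using real_inner_le_norm v w
  have k : 1 - γ ^ 2 ≤ (2 / 5 * (1 + γ)) ^ 2 := by nlinarith
  have k0 : 0 ≤ 1 - γ ^ 2 := by nlinarith
  have hρ : 0 ≤ ρ := (norm_nonneg _).trans h₁
  have hσ : 0 ≤ σ := (norm_nonneg _).trans h₂
  have b1 : inner ℝ v e - γ * inner ℝ w e ≤ 2 / 5 * (1 + γ) * σ := by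
    refine (le_abs_self _).trans (abs_le_of_sq_le_sq' ?_ (by positivity) |> fun h => abs_le.mpr h)
    rw [mul_pow]
    exact a1.trans (mul_le_mul k (pow_le_pow_left₀ (norm_nonneg _) h₂ 2) (by positivity)
      (by positivity))
  have b2 : -(2 / 5 * (1 + γ) * ρ) ≤ inner ℝ w e - γ * inner ℝ v e := by
    refine (abs_le_of_sq_le_sq' ?_ (by positivity)).1
    rw [mul_pow]
    exact a2.trans (mul_le_mul k (pow_le_pow_left₀ (norm_nonneg _) h₁ 2) (by positivity)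
      (by positivity))
  have : (1 + γ) * (inner ℝ v e - inner ℝ w e) ≤ (1 + γ) * (2 / 5 * (ρ + σ)) := by nlinarith
  exact le_of_mul_le_mul_left this (by linarith)

lemma perp_le_two {v p a b : V} (ha : ‖off p v a‖ ≤ 1) (hb : ‖off p v b‖ ≤ 1) :
    ‖(b - a) - (inner ℝ v (b - a)) • v‖ ≤ 2 := by
  rw [← off_sub p]; exact (norm_sub_le _ _).trans (by linarith)

lemma length_le {v w p q a b : V} (hv : ‖v‖ = 1) (hw : ‖w‖ = 1) (hγ0 : 0 ≤ inner ℝ v w)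
    (hγ : inner ℝ v w ≤ 21 / 29) (ha : ‖off p v a‖ ≤ 1) (hb : ‖off p v b‖ ≤ 1)
    (ha' : ‖off q w a‖ ≤ 1) (hb' : ‖off q w b‖ ≤ 1) : inner ℝ v (b - a) ≤ 5 := by
  have a1 := two_lines hv hw (b - a)
  have a2 := two_lines hw hv (b - a)
  rw [real_inner_comm v w] at a2
  have c1 := pow_le_pow_left₀ (norm_nonneg _) (perp_le_two ha hb) 2
  have c2 := pow_le_pow_left₀ (norm_nonneg _) (perp_le_two ha' hb') 2
  set γ := inner ℝ v w
  set x := inner ℝ v (b - a)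
  set y := inner ℝ w (b - a)
  have k0 : 0 ≤ 1 - γ ^ 2 := by nlinarith
  have d1 : (x - γ * y) ^ 2 ≤ (1 - γ ^ 2) * 4 := a1.trans (by nlinarith)
  have d2 : (y - γ * x) ^ 2 ≤ (1 - γ ^ 2) * 4 := a2.trans (by nlinarith)
  have k : (1 - γ ^ 2) * 4 ≤ (5 * (1 - γ)) ^ 2 := by nlinarith
  have e1 := (abs_le_of_sq_le_sq' (d1.trans k) (by linarith)).2
  have e2 := (abs_le_of_sq_le_sq' (d2.trans k) (by linarith)).2
  have e3 : γ * (y - γ * x) ≤ γ * (5 * (1 - γ)) := mul_le_mul_of_nonneg_left e2 hγ0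
  have : (1 - γ ^ 2) * x ≤ (1 - γ ^ 2) * 5 := by nlinarith
  exact le_of_mul_le_mul_left this (by nlinarith)

end Pool.Agent.MP_a382a5_co
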