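import Mathlib

/-!
The one variable concavity estimate behind the convexity of cones of directions of transversals.
-/

namespace Pool.Agent.MP_a382a5_co

open Real Set

/-- radius of a slice -/
noncomputable def rho (a β n τ : ℝ) : ℝ := √(a ^ 2 + 2 * β * τ - n * τ ^ 2)

/-- derivative of the radius of a slice -/
noncomputable def kap (a β n τ : ℝ) : ℝ := (β - n * τ) / rho a β n τ

lemma hasDerivAt_rho {a β n τ : ℝ} (h : 0 < a ^ 2 + 2 * β * τ - n * τ ^ 2) :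
    HasDerivAt (rho a β n) (kap a β n τ) τ := by
  have h1 : HasDerivAt (fun τ : ℝ => a ^ 2 + 2 * β * τ - n * τ ^ 2) (2 * β - n * (2 * τ)) τ := by
    have e1 := ((hasDerivAt_id τ).const_mul (2 * β)).const_add (a ^ 2)
    have e2 := (hasDerivAt_pow 2 τ).const_mul n
    have := e1.sub e2
    simp only [mul_one, Nat.cast_ofNat, Nat.add_one_sub_one, pow_one] at this
    exact this
  have h2 := h1.sqrt h.ne'
  have e : (2 * β - n * (2 * τ)) / (2 * √(a ^ 2 + 2 * β * τ - n * τ ^ 2)) = kap a β n τ := by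
    unfold kap rho
    have : √(a ^ 2 + 2 * β * τ - n * τ ^ 2) ≠ 0 := (sqrt_pos.mpr h).ne'
    field_simp
  rw [e] at h2
  exact h2

lemma hasDerivAt_kap {a β n τ : ℝ} (h : 0 < a ^ 2 + 2 * β * τ - n * τ ^ 2) :
    HasDerivAt (kap a β n) (-(n + kap a β n τ ^ 2) / rho a β n τ) τ := by
  have h0 : rho a β n τ ≠ 0 := (sqrt_pos.mpr h).ne'
  have h1 : HasDerivAt (fun τ : ℝ => β - n * τ) (-n) τ := by
    simpa using ((hasDerivAt_id τ).const_mul n).const_sub β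
  have h2 := h1.div (hasDerivAt_rho h) h0
  have e : (-n * rho a β n τ - (β - n * τ) * kap a β n τ) / rho a β n τ ^ 2 =
      -(n + kap a β n τ ^ 2) / rho a β n τ := by
    unfold kap
    field_simp
    ring
  rw [e] at h2
  exact h2

lemma alg_ineq {r₁ r₂ k₁ k₂ n M : ℝ} (h₁ : 0 < r₁) (h₂ : 0 < r₂) (hn : 0 < n)
    (h : n * (r₁ - r₂) ^ 2 + (k₁ * r₁ + k₂ * r₂) ^ 2 < n * M) :
    (-(n + k₁ ^ 2) / r₁ + -(n + k₂ ^ 2) / r₂) * M + (r₁ + r₂) * (k₁ + k₂) ^ 2 < 0 := by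
  have a1 : (k₁ + k₂) ^ 2 * r₁ ^ 2 < (n + k₂ ^ 2) * M := by
    have b1 := mul_lt_mul_of_pos_left h (show 0 < n + k₂ ^ 2 by positivity)
    have b2 := sq_nonneg (k₂ * (k₁ * r₁ + k₂ * r₂) - n * (r₁ - r₂))
    have : n * ((k₁ + k₂) ^ 2 * r₁ ^ 2) < n * ((n + k₂ ^ 2) * M) := by nlinarith
    exact lt_of_mul_lt_mul_left this hn.le
  have a2 : (k₁ + k₂) ^ 2 * r₂ ^ 2 < (n + k₁ ^ 2) * M := by
    have b1 := mul_lt_mul_of_pos_left h (show 0 < n + k₁ ^ 2 by positivity)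
    have b2 := sq_nonneg (k₁ * (k₁ * r₁ + k₂ * r₂) + n * (r₁ - r₂))
    have : n * ((k₁ + k₂) ^ 2 * r₂ ^ 2) < n * ((n + k₁ ^ 2) * M) := by nlinarith
    exact lt_of_mul_lt_mul_left this hn.le
  have e : (-(n + k₁ ^ 2) / r₁ + -(n + k₂ ^ 2) / r₂) * M + (r₁ + r₂) * (k₁ + k₂) ^ 2 =
      (-(r₂ * ((n + k₁ ^ 2) * M)) - r₁ * ((n + k₂ ^ 2) * M) +
        r₁ * r₂ * (r₁ + r₂) * (k₁ + k₂) ^ 2) / (r₁ * r₂) := by
    field_simp
    ring
  rw [e]
  apply div_neg_of_neg_of_pos _ (mul_pos h₁ h₂)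
  have c1 := mul_lt_mul_of_pos_left a1 h₁
  have c2 := mul_lt_mul_of_pos_left a2 h₂
  have c3 : 0 ≤ (k₁ + k₂) ^ 2 * ((r₁ + r₂) * (r₁ - r₂) ^ 2) := by positivity
  nlinarith

/-- strict concavity, in the form needed: the slope at the origin exceeds the increment -/
lemma slope_gt {a b β₁ β₂ n L : ℝ} (ha : 0 < a) (hb : 0 < b) (hn : 0 < n) (hL : 0 < L)
    (H : 2 * n * (a ^ 2 + b ^ 2) + (β₁ + β₂) ^ 2 < n * L ^ 2)
    (h₁ : 0 ≤ a ^ 2 + 2 * β₁ - n) (h₂ : 0 ≤ b ^ 2 + 2 * β₂ - n) :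
    arcsin ((rho a β₁ n 1 + rho b β₂ n 1) / L) - arcsin ((a + b) / L) <
      (β₁ / a + β₂ / b) / √(L ^ 2 - (a + b) ^ 2) := by
  have q0 : ∀ {c β : ℝ}, 0 < c → 0 ≤ c ^ 2 + 2 * β - n → ∀ τ ∈ Ico (0 : ℝ) 1,
      0 < c ^ 2 + 2 * β * τ - n * τ ^ 2 := by
    intro c β hc h τ hτ
    have k1 := mul_nonneg hτ.1 h
    have k2 : 0 < (1 - τ) * c ^ 2 := mul_pos (by linarith [hτ.2]) (by positivity)
    have k3 : 0 ≤ n * (τ * (1 - τ)) := mul_nonneg hn.le (mul_nonneg hτ.1 (by linarith [hτ.2]))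
    nlinarith
  set g : ℝ → ℝ := fun τ => rho a β₁ n τ + rho b β₂ n τ with hg
  set k : ℝ → ℝ := fun τ => kap a β₁ n τ + kap b β₂ n τ with hk
  have hM : ∀ τ ∈ Ico (0 : ℝ) 1, n * (rho a β₁ n τ - rho b β₂ n τ) ^ 2 +
      (kap a β₁ n τ * rho a β₁ n τ + kap b β₂ n τ * rho b β₂ n τ) ^ 2 < n * (L ^ 2 - g τ ^ 2) := by
    intro τ hτ
    have p1 := q0 ha h₁ τ hτ
    have p2 := q0 hb h₂ τ hτ
    have e1 : rho a β₁ n τ ^ 2 = a ^ 2 + 2 * β₁ * τ - n * τ ^ 2 := sq_sqrt p1.le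
    have e2 : rho b β₂ n τ ^ 2 = b ^ 2 + 2 * β₂ * τ - n * τ ^ 2 := sq_sqrt p2.le
    have e3 : kap a β₁ n τ * rho a β₁ n τ = β₁ - n * τ := div_mul_cancel₀ _ (sqrt_pos.mpr p1).ne'
    have e4 : kap b β₂ n τ * rho b β₂ n τ = β₂ - n * τ := div_mul_cancel₀ _ (sqrt_pos.mpr p2).ne'
    rw [e3, e4]
    simp only [hg]
    have e5 : n * (rho a β₁ n τ - rho b β₂ n τ) ^ 2 + n * (rho a β₁ n τ + rho b β₂ n τ) ^ 2 =
        2 * n * (rho a β₁ n τ ^ 2 + rho b β₂ n τ ^ 2) := by ring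
    rw [e1, e2] at e5
    nlinarith
  have hMpos : ∀ τ ∈ Ico (0 : ℝ) 1, 0 < L ^ 2 - g τ ^ 2 := by
    intro τ hτ
    have := hM τ hτ
    have h0 : 0 < n * (L ^ 2 - g τ ^ 2) := lt_of_le_of_lt (by positivity) this
    exact (mul_pos_iff_of_pos_left hn).mp h0
  have hgd : ∀ τ ∈ Ico (0 : ℝ) 1, HasDerivAt g (k τ) τ := fun τ hτ =>
    (hasDerivAt_rho (q0 ha h₁ τ hτ)).add (hasDerivAt_rho (q0 hb h₂ τ hτ))
  set h : ℝ → ℝ := fun τ => k τ / √(L ^ 2 - g τ ^ 2) with hh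
  have hGd : ∀ τ ∈ Ico (0 : ℝ) 1, HasDerivAt (fun τ => arcsin (g τ / L)) (h τ) τ := by
    intro τ hτ
    have m := hMpos τ hτ
    have n1 : g τ / L ≠ -1 := by
      intro e
      rw [div_eq_iff hL.ne'] at e
      rw [e] at m; nlinarith
    have n2 : g τ / L ≠ 1 := by
      intro e
      rw [div_eq_iff hL.ne'] at e
      rw [e] at m; nlinarith
    have d := HasDerivAt.comp τ (h := fun τ => g τ / L) (hasDerivAt_arcsin n1 n2)
      ((hgd τ hτ).div_const L)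
    have e : 1 / √(1 - (g τ / L) ^ 2) * (k τ / L) = h τ := by
      have e1 : L ^ 2 - g τ ^ 2 = L ^ 2 * (1 - (g τ / L) ^ 2) := by field_simp
      simp only [hh]
      rw [e1, sqrt_mul (sq_nonneg L), sqrt_sq hL.le]
      field_simp
    rw [e] at d
    exact d
  have hhd : ∀ τ ∈ Ico (0 : ℝ) 1, ∃ d < 0, HasDerivAt h d τ := by
    intro τ hτ
    have p1 := q0 ha h₁ τ hτ
    have p2 := q0 hb h₂ τ hτ
    have m := hMpos τ hτ
    have s0 : 0 < √(L ^ 2 - g τ ^ 2) := sqrt_pos.mpr m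
    have d1 : HasDerivAt k (-(n + kap a β₁ n τ ^ 2) / rho a β₁ n τ +
        -(n + kap b β₂ n τ ^ 2) / rho b β₂ n τ) τ := (hasDerivAt_kap p1).add (hasDerivAt_kap p2)
    have d2 : HasDerivAt (fun τ => L ^ 2 - g τ ^ 2) (-(2 * g τ * k τ)) τ := by
      have := ((hgd τ hτ).pow 2).const_sub (L ^ 2)
      simp only [Nat.cast_ofNat, Nat.add_one_sub_one, pow_one] at this
      exact this
    have d3 := d1.div (d2.sqrt m.ne') s0.ne'
    refine ⟨_, ?_, d3⟩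
    apply div_neg_of_neg_of_pos _ (by positivity)
    have a1 := alg_ineq (sqrt_pos.mpr p1) (sqrt_pos.mpr p2) hn (hM τ hτ)
    have e1 : √(L ^ 2 - g τ ^ 2) ^ 2 = L ^ 2 - g τ ^ 2 := sq_sqrt m.le
    set s := √(L ^ 2 - g τ ^ 2)
    set D := -(n + kap a β₁ n τ ^ 2) / rho a β₁ n τ + -(n + kap b β₂ n τ ^ 2) / rho b β₂ n τ
    have e2 : D * s - k τ * (-(2 * g τ * k τ) / (2 * s)) = (D * s ^ 2 + g τ * k τ ^ 2) / s := by
      field_simp
      ring
    rw [e2, e1]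
    exact div_neg_of_neg_of_pos a1 s0
  have hcont : Continuous g := by
    simp only [hg, rho]; fun_prop
  obtain ⟨ξ, hξ, e1⟩ := exists_hasDerivAt_eq_slope (fun τ => arcsin (g τ / L)) h one_pos
    (continuous_arcsin.comp (hcont.div_const L)).continuousOn
    (fun τ hτ => hGd τ ⟨hτ.1.le, hτ.2⟩)
  choose! d hd0 hd using hhd
  obtain ⟨η, hη, e2⟩ := exists_hasDerivAt_eq_slope h d hξ.1
    (fun τ hτ => (hd τ ⟨hτ.1, hτ.2.trans_lt hξ.2⟩).continuousAt.continuousWithinAt)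
    (fun τ hτ => hd τ ⟨hτ.1.le, hτ.2.trans hξ.2⟩)
  have l1 : h ξ < h 0 := by
    have := hd0 η ⟨hη.1.le, hη.2.trans hξ.2⟩
    rw [e2, sub_zero, div_neg_iff] at this
    rcases this with ⟨_, h2⟩ | ⟨h1, _⟩
    · linarith [hξ.1]
    · linarith
  have g0 : g 0 = a + b := by simp [hg, rho, sqrt_sq ha.le, sqrt_sq hb.le]
  have h0 : h 0 = (β₁ / a + β₂ / b) / √(L ^ 2 - (a + b) ^ 2) := by
    simp only [hh, g0, hk, kap, rho]
    simp [sqrt_sq ha.le, sqrt_sq hb.le]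
  rw [e1, g0, h0] at l1
  simpa using l1

lemma pair_ineq {a b β₁ β₂ n T φ z₁ z₂ : ℝ} (ha : 0 < a) (hb : 0 < b) (hn : 0 < n)
    (hφ0 : 0 < φ) (hφ1 : φ < π)
    (H : 2 * n * (a ^ 2 + b ^ 2) + (β₁ + β₂) ^ 2 < n * (T ^ 2 + (a + b) ^ 2))
    (h₁ : z₁ ^ 2 ≤ a ^ 2 + 2 * β₁ - n) (h₂ : z₂ ^ 2 ≤ b ^ 2 + 2 * β₂ - n)
    (hz : z₁ - z₂ = (a + b) * cos φ - T * sin φ)
    (hord : 0 < T * (T * cos φ + (a + b) * sin φ)) : 0 < β₁ / a + β₂ / b + φ * T := by
  set L := √(T ^ 2 + (a + b) ^ 2) with hLdef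
  have hL : 0 < L := sqrt_pos.mpr (by positivity)
  have hL2 : L ^ 2 = T ^ 2 + (a + b) ^ 2 := sq_sqrt (by positivity)
  have key := slope_gt ha hb hn hL (by rw [hL2]; exact H) ((sq_nonneg _).trans h₁)
    ((sq_nonneg _).trans h₂)
  have e0 : √(L ^ 2 - (a + b) ^ 2) = |T| := by rw [hL2, ← sqrt_sq_eq_abs]; congr 1; ring
  rw [e0] at key
  have r1 : z₁ ≤ rho a β₁ n 1 := le_sqrt_of_sq_le (by linarith)
  have r2 : -z₂ ≤ rho b β₂ n 1 := le_sqrt_of_sq_le (by linarith)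
  have r3 : arcsin ((z₁ - z₂) / L) ≤ arcsin ((rho a β₁ n 1 + rho b β₂ n 1) / L) :=
    monotone_arcsin (div_le_div_of_nonneg_right (by linarith) hL.le)
  set ψ := arcsin ((a + b) / L) with hψ
  have hab1 : (a + b) / L ≤ 1 := by
    rw [div_le_one hL]; exact le_sqrt_of_sq_le (by nlinarith [sq_nonneg T])
  have hab0 : 0 ≤ (a + b) / L := by positivity
  have s1 : sin ψ = (a + b) / L := sin_arcsin (by linarith) hab1
  have c1 : cos ψ = |T| / L := by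
    rw [hψ, cos_arcsin, ← e0]
    have e1 : L ^ 2 - (a + b) ^ 2 = L ^ 2 * (1 - ((a + b) / L) ^ 2) := by field_simp
    rw [e1, sqrt_mul (sq_nonneg L), sqrt_sq hL.le]
    field_simp
  have p0 : 0 ≤ ψ := arcsin_nonneg.mpr hab0
  have p1 : ψ ≤ π / 2 := arcsin_le_pi_div_two _
  rcases lt_trichotomy T 0 with hT | hT | hT
  · rw [abs_of_neg hT] at key c1
    have o1 : T * cos φ + (a + b) * sin φ < 0 := by nlinarith
    have e1 : (z₁ - z₂) / L = sin (ψ + φ) := by rw [sin_add, s1, c1, hz]; ring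
    have e2 : 0 < cos (ψ + φ) := by
      rw [cos_add, s1, c1]
      have : -T / L * cos φ - (a + b) / L * sin φ = -(T * cos φ + (a + b) * sin φ) / L := by ring
      rw [this]; exact div_pos (by linarith) hL
    have e3 : ψ + φ ≤ π / 2 := by
      by_contra hc
      push Not at hc
      linarith [cos_nonpos_of_pi_div_two_le_of_le hc.le (by linarith)]
    rw [e1, arcsin_sin (by linarith [pi_pos]) e3] at r3
    have e4 : φ < (β₁ / a + β₂ / b) / -T := by linarith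
    rw [lt_div_iff₀ (by linarith)] at e4
    linarith
  · rw [hT] at hord; simp at hord
  · rw [abs_of_pos hT] at key c1
    have o1 : 0 < T * cos φ + (a + b) * sin φ := by nlinarith
    have e1 : (z₁ - z₂) / L = sin (ψ - φ) := by rw [sin_sub, s1, c1, hz]; ring
    have e2 : 0 < cos (φ - ψ) := by
      rw [cos_sub, s1, c1]
      have : cos φ * (T / L) + sin φ * ((a + b) / L) = (T * cos φ + (a + b) * sin φ) / L := by ring
      rw [this]; exact div_pos o1 hL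
    have e3 : φ - ψ ≤ π / 2 := by
      by_contra hc
      push Not at hc
      linarith [cos_nonpos_of_pi_div_two_le_of_le hc.le (by linarith [pi_pos])]
    rw [e1, arcsin_sin (by linarith) (by linarith)] at r3
    have e4 : -φ < (β₁ / a + β₂ / b) / T := by linarith
    rw [lt_div_iff₀ hT] at e4
    linarith

lemma pair_ineq_zero {A T φ : ℝ} (hA : 0 < A) (hφ0 : 0 < φ) (hφ1 : φ < π)
    (hz : A * cos φ - T * sin φ ≤ A) (hord : 0 < T * (T * cos φ + A * sin φ)) : 0 < φ * T := by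
  have hs := sin_pos_of_pos_of_lt_pi hφ0 hφ1
  have h1 := sin_sq_add_cos_sq φ
  rcases lt_trichotomy T 0 with hT | hT | hT
  · exfalso
    have o1 : T * cos φ + A * sin φ < 0 := by nlinarith
    have o2 : 0 < cos φ := by
      by_contra hc
      push Not at hc
      nlinarith [mul_nonneg_of_nonpos_of_nonpos hT.le hc, mul_pos hA hs]
    have o3 := mul_lt_mul_of_pos_left o1 hs
    have o4 := mul_le_mul_of_nonneg_left hz o2.le
    have o5 : cos φ < 1 := by nlinarith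
    nlinarith [mul_pos hA (sub_pos.mpr o5)]
  · rw [hT] at hord; simp at hord
  · positivity

end Pool.Agent.MP_a382a5_co
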