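import Pool.Agent.MP_a382a5_co.Pin

/-!
A Hadwiger type theorem for transversals respecting a tournament.
-/

namespace Pool.Agent.MP_a382a5_co

open Module

variable {V : Type*} [NormedAddCommGroup V] [InnerProductSpace ℝ V]

/-- there is a line at squared distance at most `ρ` from the points, in an order respecting `R` -/
def Tr (R : V → V → Prop) (ρ : ℝ) (S : Finset V) : Prop :=
  ∃ p v : V, ‖v‖ = 1 ∧ (∀ c ∈ S, ‖off p v c‖ ^ 2 ≤ ρ) ∧
    ∀ x ∈ S, ∀ y ∈ S, x ≠ y → R x y → 0 < inner ℝ v (y - x)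

/-- there is a line at distance at most one from the points -/
def HasT (S : Finset V) : Prop := ∃ p v : V, ‖v‖ = 1 ∧ ∀ c ∈ S, ‖off p v c‖ ≤ 1

omit [InnerProductSpace ℝ V] in
lemma le_one_of_sq {x : V} {ρ : ℝ} (h : ‖x‖ ^ 2 ≤ ρ) (h1 : ρ ≤ 1) : ‖x‖ ≤ 1 := by
  nlinarith [norm_nonneg x]

lemma off_shift {v : V} (hv : ‖v‖ = 1) (p c : V) (t : ℝ) : off (p + t • v) v c = off p v c := by
  have h2 : off p v (p + t • v) = 0 := by simp [off, inner_smul_right, hv]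
  have := off_sub p v (p + t • v) c
  rw [h2, sub_zero] at this
  rw [this, off]

lemma exists_min [FiniteDimensional ℝ V] {R : V → V → Prop} {S : Finset V} (hS : Sep S)
    (h : Tr R 1 S) : ∃ ρ, 0 ≤ ρ ∧ ρ ≤ 1 ∧ Tr R ρ S ∧ ∀ ρ', 0 ≤ ρ' → Tr R ρ' S → ρ ≤ ρ' := by
  rcases S.eq_empty_or_nonempty with rfl | ⟨c₀, hc₀⟩
  · obtain ⟨p, v, hv, _⟩ := h
    exact ⟨0, le_rfl, zero_le_one, ⟨p, v, hv, by simp, by simp⟩, fun _ h _ => h⟩
  let C : Set (V × V × ℝ) := {x | (∀ c ∈ S, ‖off x.1 x.2.1 c‖ ^ 2 ≤ x.2.2) ∧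
    ∀ a ∈ S, ∀ b ∈ S, a ≠ b → R a b → 0 ≤ inner ℝ x.2.1 (b - a)}
  have hC : IsClosed C := by
    simp only [C, Set.ofPred_and, Set.ofPred_forall, off]
    refine IsClosed.inter (isClosed_iInter fun c => isClosed_iInter fun _ =>
      isClosed_le (by fun_prop) (by fun_prop)) (isClosed_iInter fun a => isClosed_iInter fun _ =>
        isClosed_iInter fun b => isClosed_iInter fun _ => isClosed_iInter fun _ =>
          isClosed_iInter fun _ => isClosed_le (by fun_prop) (by fun_prop))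
  have hK : IsCompact ((Metric.closedBall c₀ 1 ×ˢ Metric.sphere (0 : V) 1 ×ˢ Set.Icc (0 : ℝ) 1)
      ∩ C) :=
    ((isCompact_closedBall c₀ 1).prod ((isCompact_sphere 0 1).prod isCompact_Icc)).inter_right hC
  have hmem : ∀ ρ, 0 ≤ ρ → ρ ≤ 1 → Tr R ρ S → ∃ p v, (p, v, ρ) ∈
      ((Metric.closedBall c₀ 1 ×ˢ Metric.sphere (0 : V) 1 ×ˢ Set.Icc (0 : ℝ) 1) ∩ C) := by
    rintro ρ h0 h1 ⟨p, v, hv, k1, k2⟩
    refine ⟨p + (inner ℝ v (c₀ - p)) • v, v, ⟨?_, by simpa using hv, h0, h1⟩, ?_, ?_⟩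
    · rw [Metric.mem_closedBall, dist_comm, dist_eq_norm]
      have := le_one_of_sq (k1 c₀ hc₀) h1
      rwa [off, sub_sub] at this
    · intro c hc
      rw [off_shift hv]; exact k1 c hc
    · intro a ha b hb hab hR
      exact (k2 a ha b hb hab hR).le
  obtain ⟨p₁, v₁, h₁⟩ := hmem 1 zero_le_one le_rfl h
  obtain ⟨⟨p, v, ρ⟩, ⟨⟨_, hv, h0, h1⟩, k1, k2⟩, hmin⟩ := hK.exists_isMinOn ⟨_, h₁⟩
    (f := fun x => x.2.2) (by fun_prop)
  have hv' : ‖v‖ = 1 := by simpa using hv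
  refine ⟨ρ, h0, h1, ⟨p, v, hv', k1, fun a ha b hb hab hR => ?_⟩, fun ρ' h0' h' => ?_⟩
  · exact lt_of_le_of_ne (k2 a ha b hb hab hR) (inner_ne_zero hv' (le_one_of_sq (k1 a ha) h1)
      (le_one_of_sq (k1 b hb) h1) (hS a ha b hb hab)).symm
  · rcases le_total ρ' 1 with k | k
    · obtain ⟨p', v', hm⟩ := hmem ρ' h0' k h'
      exact hmin hm
    · exact h1.trans k

lemma small_infeasible [FiniteDimensional ℝ V] {k : ℕ} (hk : finrank ℝ V = k + 1) {S : Finset V}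
    {p v : V} (hv : ‖v‖ = 1) (h : ¬ Feas p v S) :
    ∃ S' ⊆ S, S'.card ≤ 2 * k + 1 ∧ ¬ Feas p v S' := by
  by_contra hcon
  push Not at hcon
  have : Fact (finrank ℝ V = k + 1) := ⟨hk⟩
  have hv0 : v ≠ 0 := by rintro rfl; simp at hv
  have hW : finrank ℝ (ℝ ∙ v)ᗮ = k := Submodule.finrank_orthogonal_span_singleton hv0
  let F : V → Set ((ℝ ∙ v)ᗮ × (ℝ ∙ v)ᗮ) := fun c =>
    {x | 0 < inner ℝ (off p v c) ((x.1 : V) + (inner ℝ v (c - p)) • (x.2 : V))}
  have hmemW : ∀ x : V, x - (inner ℝ v x) • v ∈ (ℝ ∙ v)ᗮ := fun x => by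
    rw [Submodule.mem_orthogonal_singleton_iff_inner_right, inner_sub_right, inner_smul_right,
      real_inner_self_eq_norm_sq, hv]
    ring
  obtain ⟨x, hx⟩ := Convex.helly_theorem' (𝕜 := ℝ) (F := F) (s := S) (fun c _ => by
    refine convex_halfSpace_gt (f := fun x : (ℝ ∙ v)ᗮ × (ℝ ∙ v)ᗮ =>
      inner ℝ (off p v c) ((x.1 : V) + (inner ℝ v (c - p)) • (x.2 : V))) ⟨?_, ?_⟩ 0
    · intro x y
      simp only [Prod.fst_add, Prod.snd_add, Submodule.coe_add, inner_add_right, inner_smul_right]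
      ring
    · intro r x
      simp only [Prod.smul_fst, Prod.smul_snd, Submodule.coe_smul, inner_add_right,
        inner_smul_right, smul_eq_mul]
      ring) (fun I hI hcard => by
    rw [finrank_prod, hW] at hcard
    obtain ⟨x, s, hxs⟩ := hcon I hI (by omega)
    refine ⟨(⟨_, hmemW x⟩, ⟨_, hmemW s⟩), Set.mem_iInter₂.mpr fun c hc => ?_⟩
    have k1 := hxs c hc
    have k2 : inner ℝ (off p v c) v = 0 := by rw [real_inner_comm]; exact inner_off hv p c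
    simp only [F, Set.mem_ofPred_eq, inner_add_right, inner_smul_right, inner_sub_right (off p v c),
      k2] at k1 ⊢
    linarith)
  exact h ⟨x.1, x.2, fun c hc => Set.mem_iInter₂.mp hx c hc⟩

theorem hadwiger [FiniteDimensional ℝ V] {k : ℕ} (hk : finrank ℝ V = k + 1) (hk1 : 1 ≤ k)
    {U : Finset V} (hU : Sep U) (h2 : 2 ≤ U.card) {R : V → V → Prop}
    (hR : ∀ x ∈ U, ∀ y ∈ U, x ≠ y → R x y ∨ R y x)
    (h : ∀ S ⊆ U, S.card ≤ 2 * k + 2 → Tr R 1 S) : HasT U := by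
  classical
  have hsub : ∀ S ⊆ U, Sep S := fun S hS x hx y hy => hU x (hS hx) y (hS hy)
  have h1 : ∀ S : Finset V, S ⊆ U ∧ S.card ≤ 2 * k + 2 → ∃ ρ, 0 ≤ ρ ∧ ρ ≤ 1 ∧ Tr R ρ S ∧
      ∀ ρ', 0 ≤ ρ' → Tr R ρ' S → ρ ≤ ρ' := fun S hS => exists_min (hsub S hS.1) (h S hS.1 hS.2)
  choose! r hr0 hr1 hrT hrmin using h1
  obtain ⟨S₀, hS₀, hmax⟩ := (U.powerset.filter fun S => S.card ≤ 2 * k + 2).exists_max_image r
    ⟨∅, by simp⟩
  have hS₀' : S₀ ⊆ U ∧ S₀.card ≤ 2 * k + 2 := by simpa using hS₀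
  set ρ := r S₀ with hρ
  have hall : ∀ S ⊆ U, S.card ≤ 2 * k + 2 → Tr R ρ S := fun S hS hc => by
    obtain ⟨p, v, hv, k1, k2⟩ := hrT S ⟨hS, hc⟩
    exact ⟨p, v, hv, fun c hc' => (k1 c hc').trans (hmax S (by simpa using ⟨hS, hc⟩)), k2⟩
  have hρ1 : ρ ≤ 1 := hr1 S₀ hS₀'
  rcases (hr0 S₀ hS₀').eq_or_lt with hρ0 | hρ0
  · obtain ⟨x, hx, y, hy, hxy⟩ := Finset.one_lt_card.mp h2
    have hne : y - x ≠ 0 := sub_ne_zero.mpr hxy.symm
    have hN : 0 < ‖y - x‖ := norm_pos_iff.mpr hne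
    have hw : ‖‖y - x‖⁻¹ • (y - x)‖ = 1 := norm_smul_inv_norm hne
    refine ⟨x, _, hw, fun z hz => ?_⟩
    obtain ⟨p, v, hv, k1, _⟩ := hall {x, y, z} (by
      intro c hc
      simp only [Finset.mem_insert, Finset.mem_singleton] at hc
      rcases hc with rfl | rfl | rfl <;> assumption) (Finset.card_le_three.trans (by omega))
    have z0 : ∀ c ∈ ({x, y, z} : Finset V), off p v c = 0 := fun c hc => by
      have := k1 c hc
      rw [hρ, ← hρ0] at this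
      exact norm_eq_zero.mp (by nlinarith [norm_nonneg (off p v c)])
    have e1 := off_sub p v x y
    have e2 := off_sub p v x z
    rw [z0 x (by simp), z0 y (by simp), sub_zero] at e1
    rw [z0 x (by simp), z0 z (by simp), sub_zero] at e2
    have e3 : y - x = (inner ℝ v (y - x)) • v := sub_eq_zero.mp e1.symm
    have e4 : z - x = (inner ℝ v (z - x)) • v := sub_eq_zero.mp e2.symm
    set α := inner ℝ v (y - x)
    set β := inner ℝ v (z - x)
    have hα : α ≠ 0 := by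
      intro h0
      rw [h0, zero_smul] at e3
      exact hne e3
    refine (norm_off_le hw x z (β / α * ‖y - x‖)).trans ?_
    have : x + (β / α * ‖y - x‖) • ‖y - x‖⁻¹ • (y - x) - z = 0 := by
      rw [smul_smul, mul_assoc, mul_inv_cancel₀ hN.ne', mul_one, e3, smul_smul,
        div_mul_cancel₀ _ hα, ← e4]
      abel
    rw [this]; simp
  obtain ⟨p, v, hv, k1, k2⟩ := hrT S₀ hS₀'
  have agree : ∀ {S : Finset V} {w : V}, S ⊆ S₀ →
      (∀ x ∈ S, ∀ y ∈ S, x ≠ y → R x y → 0 < inner ℝ w (y - x)) →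
      ∀ x ∈ S, ∀ y ∈ S, 0 < inner ℝ v (y - x) → 0 < inner ℝ w (y - x) := by
    intro S w hS hw x hx y hy hxy
    have hne : x ≠ y := by rintro rfl; simp at hxy
    rcases hR x (hS₀'.1 (hS hx)) y (hS₀'.1 (hS hy)) hne with k | k
    · exact hw x hx y hy hne k
    · have := k2 y (hS hy) x (hS hx) hne.symm k
      rw [inner_swap] at this
      linarith
  have hinf : ¬ Feas p v (S₀.filter fun c => ‖off p v c‖ ^ 2 = ρ) := by
    intro hf
    obtain ⟨q, w, hw, l1, l2⟩ := descent hv k1 (by simpa using hf)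
    rcases S₀.eq_empty_or_nonempty with he | hne
    · have := hrmin S₀ hS₀' 0 le_rfl ⟨p, v, hv, by simp [he], k2⟩
      linarith
    · obtain ⟨c, hc, hcmax⟩ := S₀.exists_max_image (fun c => ‖off q w c‖ ^ 2) hne
      have := hrmin S₀ hS₀' (‖off q w c‖ ^ 2) (sq_nonneg _)
        ⟨q, w, hw, hcmax, fun x hx y hy hxy hr => l2 x hx y hy (k2 x hx y hy hxy hr)⟩
      linarith [l1 c hc]
  obtain ⟨S', hS', hcard, hinf'⟩ := small_infeasible hk hv hinf
  have hS'0 : S' ⊆ S₀ := hS'.trans (Finset.filter_subset _ _)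
  refine ⟨p, v, hv, fun X hX => ?_⟩
  obtain ⟨q, w, hw, l1, l2⟩ := hall (insert X S')
    (Finset.insert_subset hX (hS'0.trans hS₀'.1)) ((Finset.card_insert_le _ _).trans (by omega))
  have e := pin hv hw hρ0 (fun c hc => (Finset.mem_filter.mp (hS' hc)).2)
    (fun c hc => l1 c (Finset.mem_insert_of_mem hc)) (fun x hx y hy hxy => by
      have := hU x (hS₀'.1 (hS'0 hx)) y (hS₀'.1 (hS'0 hy)) hxy
      rw [dist_eq_norm] at this
      nlinarith)
    (agree hS'0 fun x hx y hy => l2 x (Finset.mem_insert_of_mem hx) y (Finset.mem_insert_of_mem hy))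
    hinf' X
  rw [← e]
  exact le_one_of_sq (l1 X (Finset.mem_insert_self _ _)) hρ1

end Pool.Agent.MP_a382a5_co
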