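import Pool.Agent.MP_a382a5_co.Basic

/-!
Two transversals making a small angle order the points in the same way, up to one pair.
-/

namespace Pool.Agent.MP_a382a5_co

variable {V : Type*} [NormedAddCommGroup V] [InnerProductSpace ℝ V]

lemma inner_swap (v a b : V) : inner ℝ v (a - b) = -inner ℝ v (b - a) := by
  simp only [inner_sub_right]; ring

lemma inner_trans (v a b c : V) : inner ℝ v (c - a) = inner ℝ v (b - a) + inner ℝ v (c - b) := by
  simp only [inner_sub_right]; ring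

lemma not_both_long {v w p q a b : V} (hv : ‖v‖ = 1) (hw : ‖w‖ = 1) (hγ : 21 / 29 ≤ inner ℝ v w)
    (ha : ‖off p v a‖ ≤ 1) (hb : ‖off p v b‖ ≤ 1) (ha' : ‖off q w a‖ ≤ 1) (hb' : ‖off q w b‖ ≤ 1)
    (h₁ : 7 / 5 < inner ℝ v (b - a)) (h₂ : 7 / 5 < inner ℝ w (a - b)) : False := by
  have := rev_bound hv hw hγ (b - a) (perp_le_two ha hb) (perp_le_two ha' hb')
  rw [inner_swap] at h₂
  linarith

lemma perp_mid {v p a b c : V} (hv : ‖v‖ = 1) (ha : ‖off p v a‖ ≤ 1) (hb : ‖off p v b‖ ≤ 1)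
    (hc : ‖off p v c‖ ≤ 1) (hbc : 2 < dist b c) (h : 0 ≤ inner ℝ v (c - b)) :
    ‖((b - a) + (c - a)) - (inner ℝ v ((b - a) + (c - a))) • v‖ ≤ 2 + inner ℝ v (c - b) := by
  have e : ((b - a) + (c - a)) - (inner ℝ v ((b - a) + (c - a))) • v =
      (off p v b + off p v c) - (off p v a + off p v a) := by
    have e1 := off_sub p v a b
    have e2 := off_sub p v a c
    rw [inner_add_right, add_smul]
    calc _ = ((b - a) - (inner ℝ v (b - a)) • v) + ((c - a) - (inner ℝ v (c - a)) • v) := by abel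
      _ = _ := by rw [← e1, ← e2]; abel
  rw [e]
  have h1 := vec_gap' hb hc h (sep_sq hv p hbc)
  have h2 := norm_add_le (off p v a) (off p v a)
  have h3 := norm_sub_le (off p v b + off p v c) (off p v a + off p v a)
  linarith

/-- a point cannot jump over two others: case where it comes first and then last -/
lemma no_jump_aux {v w p q a b c : V} (hv : ‖v‖ = 1) (hw : ‖w‖ = 1) (hγ : 21 / 29 ≤ inner ℝ v w)
    (ha : ‖off p v a‖ ≤ 1) (hb : ‖off p v b‖ ≤ 1) (hc : ‖off p v c‖ ≤ 1)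
    (ha' : ‖off q w a‖ ≤ 1) (hb' : ‖off q w b‖ ≤ 1) (hc' : ‖off q w c‖ ≤ 1)
    (hab : 2 < dist a b) (hbc : 2 < dist b c) (hac : 2 < dist a c)
    (h₁ : 0 ≤ inner ℝ v (b - a)) (h₂ : 0 ≤ inner ℝ v (c - b))
    (h₃ : 0 ≤ inner ℝ w (a - b)) (h₄ : 0 ≤ inner ℝ w (a - c)) : False := by
  have hba := dist_comm a b ▸ hab
  have hcb := dist_comm b c ▸ hbc
  have hca := dist_comm a c ▸ hac
  have t1 := triple hv ha hb hc hab hbc hac h₁ h₂
  rcases le_total 0 (inner ℝ w (c - b)) with h | h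
  · have t2 := triple hw hb' hc' ha' hbc hca hba h h₄
    have r := rev_bound hv hw hγ _ (perp_mid hv ha hb hc hbc h₂) (perp_mid hw ha' hb' hc' hbc h)
    simp only [inner_add_right, inner_sub_right] at *
    linarith
  · have t2 := triple hw hc' hb' ha' hcb hba hca (by rw [inner_swap]; linarith) h₃
    exact not_both_long hv hw hγ ha hc ha' hc' t1 t2

/-- two reversed pairs cannot share a point -/
lemma no_jump {v w p q a b c : V} (hv : ‖v‖ = 1) (hw : ‖w‖ = 1) (hγ : 21 / 29 ≤ inner ℝ v w)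
    (ha : ‖off p v a‖ ≤ 1) (hb : ‖off p v b‖ ≤ 1) (hc : ‖off p v c‖ ≤ 1)
    (ha' : ‖off q w a‖ ≤ 1) (hb' : ‖off q w b‖ ≤ 1) (hc' : ‖off q w c‖ ≤ 1)
    (hab : 2 < dist a b) (hbc : 2 < dist b c) (hac : 2 < dist a c)
    (h₁ : inner ℝ v (b - a) * inner ℝ w (b - a) ≤ 0)
    (h₂ : inner ℝ v (c - a) * inner ℝ w (c - a) ≤ 0) : False := by
  have hba := dist_comm a b ▸ hab
  have hcb := dist_comm b c ▸ hbc
  have hca := dist_comm a c ▸ hac
  have hγ' : 21 / 29 ≤ inner ℝ w v := by rwa [real_inner_comm]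
  have n1 := inner_ne_zero hv ha hb hab
  have n2 := inner_ne_zero hv ha hc hac
  rcases lt_or_gt_of_ne n1 with s1 | s1 <;> rcases lt_or_gt_of_ne n2 with s2 | s2
  · have w1 : 0 ≤ inner ℝ w (b - a) := by nlinarith
    have w2 : 0 ≤ inner ℝ w (c - a) := by nlinarith
    rcases le_total 0 (inner ℝ w (c - b)) with h | h
    · exact no_jump_aux hw hv hγ' ha' hb' hc' ha hb hc hab hbc hac w1 h
        (by rw [inner_swap]; linarith) (by rw [inner_swap]; linarith)
    · exact no_jump_aux hw hv hγ' ha' hc' hb' ha hc hb hac hcb hab w2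
        (by rw [inner_swap]; linarith) (by rw [inner_swap]; linarith)
        (by rw [inner_swap]; linarith)
  · have w1 : 0 ≤ inner ℝ w (b - a) := by nlinarith
    have w2 : inner ℝ w (c - a) ≤ 0 := by nlinarith
    exact not_both_long hv hw hγ hb hc hb' hc'
      (triple hv hb ha hc hba hac hbc (by rw [inner_swap]; linarith) s2.le)
      (triple hw hc' ha' hb' hca hab hcb (by rw [inner_swap]; linarith) w1)
  · have w1 : inner ℝ w (b - a) ≤ 0 := by nlinarith
    have w2 : 0 ≤ inner ℝ w (c - a) := by nlinarith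
    exact not_both_long hv hw hγ hc hb hc' hb'
      (triple hv hc ha hb hca hab hcb (by rw [inner_swap]; linarith) s1.le)
      (triple hw hb' ha' hc' hba hac hbc (by rw [inner_swap]; linarith) w2)
  · have w1 : inner ℝ w (b - a) ≤ 0 := by nlinarith
    have w2 : inner ℝ w (c - a) ≤ 0 := by nlinarith
    rcases le_total 0 (inner ℝ v (c - b)) with h | h
    · exact no_jump_aux hv hw hγ ha hb hc ha' hb' hc' hab hbc hac s1.le h
        (by rw [inner_swap]; linarith) (by rw [inner_swap]; linarith)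
    · exact no_jump_aux hv hw hγ ha hc hb ha' hc' hb' hac hcb hab s2.le
        (by rw [inner_swap]; linarith) (by rw [inner_swap]; linarith)
        (by rw [inner_swap]; linarith)

/-- at most one pair is reversed -/
theorem one_swap {S : Finset V} (hS : Sep S) {v w p q : V} (hv : ‖v‖ = 1) (hw : ‖w‖ = 1)
    (hγ : 21 / 29 ≤ inner ℝ v w) (h : ∀ c ∈ S, ‖off p v c‖ ≤ 1) (h' : ∀ c ∈ S, ‖off q w c‖ ≤ 1)
    {a b c d : V} (ha : a ∈ S) (hb : b ∈ S) (hc : c ∈ S) (hd : d ∈ S)
    (h₁ : 0 < inner ℝ v (b - a)) (h₂ : 0 < inner ℝ w (a - b))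
    (h₃ : 0 < inner ℝ v (d - c)) (h₄ : 0 < inner ℝ w (c - d)) : a = c ∧ b = d := by
  have J : ∀ x ∈ S, ∀ y ∈ S, ∀ z ∈ S, x ≠ y → y ≠ z → x ≠ z →
      inner ℝ v (y - x) * inner ℝ w (y - x) ≤ 0 →
      inner ℝ v (z - x) * inner ℝ w (z - x) ≤ 0 → False := fun x hx y hy z hz h1 h2 h3 =>
    no_jump hv hw hγ (h x hx) (h y hy) (h z hz) (h' x hx) (h' y hy) (h' z hz) (hS x hx y hy h1)
      (hS y hy z hz h2) (hS x hx z hz h3)
  have hab : a ≠ b := by rintro rfl; simp at h₁
  have hcd : c ≠ d := by rintro rfl; simp at h₃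
  have r1 : inner ℝ v (b - a) * inner ℝ w (b - a) ≤ 0 := by rw [inner_swap w b a]; nlinarith
  have r1' : inner ℝ v (a - b) * inner ℝ w (a - b) ≤ 0 := by rw [inner_swap v a b]; nlinarith
  have r2 : inner ℝ v (d - c) * inner ℝ w (d - c) ≤ 0 := by rw [inner_swap w d c]; nlinarith
  have r2' : inner ℝ v (c - d) * inner ℝ w (c - d) ≤ 0 := by rw [inner_swap v c d]; nlinarith
  by_cases hac : a = c
  · subst hac
    by_contra hne
    exact J a ha b hb d hd hab (fun e => hne ⟨rfl, e⟩) hcd r1 r2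
  by_cases hbd : b = d
  · subst hbd
    exact (J b hb a ha c hc hab.symm hac hcd.symm r1' r2').elim
  exfalso
  by_cases had : a = d
  · subst had
    by_cases hbc : b = c
    · subst hbc
      rw [inner_swap] at h₃; linarith
    · exact J a ha b hb c hc hab hbc hac r1 r2'
  by_cases hbc : b = c
  · subst hbc
    exact J b hb a ha d hd hab.symm had hbd r1' r2
  -- four distinct points, no cross pair is reversed
  have x1 : 0 < inner ℝ v (c - a) * inner ℝ w (c - a) :=
    lt_of_not_ge fun hh => J a ha b hb c hc hab hbc hac r1 hh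
  have x2 : 0 < inner ℝ v (d - a) * inner ℝ w (d - a) :=
    lt_of_not_ge fun hh => J a ha b hb d hd hab hbd had r1 hh
  have x3 : 0 < inner ℝ v (c - b) * inner ℝ w (c - b) :=
    lt_of_not_ge fun hh => J b hb a ha c hc hab.symm hac hbc r1' hh
  have x4 : 0 < inner ℝ v (d - b) * inner ℝ w (d - b) :=
    lt_of_not_ge fun hh => J b hb a ha d hd hab.symm had hbd r1' hh
  have F : ∀ {u o : V}, ‖u‖ = 1 → (∀ c ∈ S, ‖off o u c‖ ≤ 1) → ∀ x ∈ S, ∀ y ∈ S, ∀ z ∈ S, ∀ t ∈ S,
      0 < inner ℝ u (y - x) → 0 < inner ℝ u (z - y) → 0 < inner ℝ u (t - z) →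
      ‖z - y‖ ^ 2 < ‖t - x‖ ^ 2 := by
    intro u o hu ho x hx y hy z hz t ht k1 k2 k3
    have k4 : 0 < inner ℝ u (z - x) := by rw [inner_trans u x y z]; linarith
    have k5 : 0 < inner ℝ u (t - y) := by rw [inner_trans u y z t]; linarith
    have ne : ∀ {x y : V}, 0 < inner ℝ u (y - x) → x ≠ y := by
      rintro x y k rfl; simp at k
    exact four hu (ho x hx) (ho y hy) (ho z hz) (ho t ht) (hS x hx y hy (ne k1))
      (hS y hy z hz (ne k2)) (hS x hx z hz (ne k4)) (hS y hy t ht (ne k5)) (hS z hz t ht (ne k3))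
      k1.le k2.le k3.le
  have e1 := inner_trans v a b c
  have e2 := inner_trans v a b d
  have e3 := inner_trans v a c d
  have e4 := inner_trans v b c d
  have f1 := inner_trans w b a c
  have f2 := inner_trans w b a d
  have f3 := inner_trans w d c a
  have f4 := inner_trans w d c b
  have f5 := inner_swap w a d
  have f6 := inner_swap w b d
  have f7 := inner_swap w a c
  have f8 := inner_swap w b c
  rcases pos_and_pos_or_neg_and_neg_of_mul_pos x3 with ⟨y3, z3⟩ | ⟨y3, z3⟩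
  · have y2 : 0 < inner ℝ v (d - a) := by linarith
    have z2 : 0 < inner ℝ w (d - a) := by nlinarith
    have k1 := F hv h a ha b hb c hc d hd h₁ y3 h₃
    have k2 := F hw h' b hb a ha d hd c hc h₂ z2 h₄
    linarith
  · have z1 : inner ℝ w (c - a) < 0 := by linarith
    have y1 : inner ℝ v (c - a) < 0 := by nlinarith
    have z2 : inner ℝ w (d - a) < 0 := by linarith
    have y2 : inner ℝ v (d - a) < 0 := by nlinarith
    have k1 := F hv h c hc d hd a ha b hb h₃ (by rw [inner_swap]; linarith) h₁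
    have k2 := F hw h' d hd c hc b hb a ha h₄ (by linarith) h₂
    linarith

lemma exists_long {v p : V} (hv : ‖v‖ = 1) (k : ℕ) : ∀ S : Finset V, Sep S →
    (∀ c ∈ S, ‖off p v c‖ ≤ 1) → 2 * k + 1 ≤ S.card →
    ∃ a ∈ S, ∃ b ∈ S, 7 / 5 * (k : ℝ) ≤ inner ℝ v (b - a) := by
  classical
  induction k with
  | zero =>
    intro S _ _ hc
    obtain ⟨a, ha⟩ := Finset.card_pos.mp (show 0 < S.card by omega)
    exact ⟨a, ha, a, ha, by simp⟩
  | succ k ih =>
    intro S hS h hc
    obtain ⟨b, hb, hbmax⟩ := S.exists_max_image (fun c => inner ℝ v c)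
      (Finset.card_pos.mp (by omega))
    have c1 : (S.erase b).card = S.card - 1 := Finset.card_erase_of_mem hb
    obtain ⟨b', hb', hb'max⟩ := (S.erase b).exists_max_image (fun c => inner ℝ v c)
      (Finset.card_pos.mp (by omega))
    have c2 : ((S.erase b).erase b').card = (S.erase b).card - 1 := Finset.card_erase_of_mem hb'
    have sub : (S.erase b).erase b' ⊆ S :=
      (Finset.erase_subset _ _).trans (Finset.erase_subset _ _)
    obtain ⟨a, ha, a', ha', hk⟩ := ih ((S.erase b).erase b')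
      (fun x hx y hy => hS x (sub hx) y (sub hy)) (fun c hc => h c (sub hc)) (by omega)
    obtain ⟨n1, ha'1⟩ := Finset.mem_erase.mp ha'
    obtain ⟨n2, ha'2⟩ := Finset.mem_erase.mp ha'1
    obtain ⟨n3, hb'2⟩ := Finset.mem_erase.mp hb'
    have t := triple hv (h a' ha'2) (h b' hb'2) (h b hb) (hS _ ha'2 _ hb'2 n1) (hS _ hb'2 _ hb n3)
      (hS _ ha'2 _ hb n2) (by rw [inner_sub_right]; linarith [hb'max a' ha'1])
      (by rw [inner_sub_right]; linarith [hbmax b' hb'2])
    refine ⟨a, sub ha, b, hb, ?_⟩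
    rw [inner_trans v a a' b]
    push_cast
    linarith

/-- two lines near `m` separated points make a small angle -/
def Pack (V : Type*) [NormedAddCommGroup V] [InnerProductSpace ℝ V] (m : ℕ) : Prop :=
  ∀ (S : Finset V) (v w p q : V), Sep S → m ≤ S.card → ‖v‖ = 1 → ‖w‖ = 1 → 0 ≤ inner ℝ v w →
    (∀ c ∈ S, ‖off p v c‖ ≤ 1) → (∀ c ∈ S, ‖off q w c‖ ≤ 1) → 21 / 29 < inner ℝ v w

lemma pack_nine : Pack V 9 := by
  intro S v w p q hS hc hv hw h0 h h'
  by_contra hγ
  push Not at hγ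
  obtain ⟨a, ha, b, hb, hab⟩ := exists_long hv 4 S hS h hc
  have := length_le hv hw h0 hγ (h a ha) (h b hb) (h' a ha) (h' b hb)
  norm_num at hab
  linarith

end Pool.Agent.MP_a382a5_co
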