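import Pool.Agent.MP_a382a5_co.Perm
import Pool.Agent.MP_a382a5_co.Concave

/-!
First order pinning of a line implies that it is the only transversal with the same order.
-/

namespace Pool.Agent.MP_a382a5_co

open Filter Topology

variable {V : Type*} [NormedAddCommGroup V] [InnerProductSpace ℝ V]

/-- the linearized system for moving a line strictly inside all the balls -/
def Feas (p v : V) (S : Set V) : Prop :=
  ∃ x s : V, ∀ c ∈ S, 0 < inner ℝ (off p v c) (x + (inner ℝ v (c - p)) • s)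

lemma eventually_pos_add {a : ℝ} (ha : 0 < a) (b : ℝ) : ∀ᶠ ε in 𝓝[>] (0 : ℝ), 0 < a + ε * b := by
  have : ContinuousAt (fun ε : ℝ => a + ε * b) 0 := by fun_prop
  exact nhdsWithin_le_nhds (this.eventually (lt_mem_nhds (by simpa using ha)))

theorem descent {S : Finset V} {p v : V} (hv : ‖v‖ = 1) {ρ : ℝ}
    (h : ∀ c ∈ S, ‖off p v c‖ ^ 2 ≤ ρ) (hf : Feas p v {c | c ∈ S ∧ ‖off p v c‖ ^ 2 = ρ}) :
    ∃ q w : V, ‖w‖ = 1 ∧ (∀ c ∈ S, ‖off q w c‖ ^ 2 < ρ) ∧
      ∀ x ∈ S, ∀ y ∈ S, 0 < inner ℝ v (y - x) → 0 < inner ℝ w (y - x) := by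
  obtain ⟨x, s, hxs⟩ := hf
  have e1 : ∀ᶠ ε in 𝓝[>] (0 : ℝ), 0 < ‖v‖ ^ 2 + ε * inner ℝ v s :=
    eventually_pos_add (by rw [hv]; norm_num) _
  have e2 : ∀ᶠ ε in 𝓝[>] (0 : ℝ), ∀ c ∈ S,
      ‖off p v c - ε • (x + (inner ℝ v (c - p)) • s)‖ ^ 2 < ρ := by
    rw [eventually_all_finset]
    intro c hc
    set u := off p v c
    set z := x + (inner ℝ v (c - p)) • s
    have e : ∀ ε : ℝ, ‖u - ε • z‖ ^ 2 = ‖u‖ ^ 2 - ε * (2 * inner ℝ u z + ε * (-‖z‖ ^ 2)) := by
      intro ε
      rw [norm_sub_sq_real, inner_smul_right, norm_smul, mul_pow, Real.norm_eq_abs, sq_abs]; ring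
    rcases (h c hc).eq_or_lt with h1 | h1
    · have h2 := hxs c ⟨hc, h1⟩
      filter_upwards [eventually_pos_add (show 0 < 2 * inner ℝ u z by linarith) (-‖z‖ ^ 2),
        self_mem_nhdsWithin] with ε k1 k2
      rw [e, h1]
      linarith [mul_pos (show 0 < ε from k2) k1]
    · have : ContinuousAt (fun ε : ℝ => ‖u - ε • z‖ ^ 2) 0 := by fun_prop
      exact nhdsWithin_le_nhds (this.eventually (gt_mem_nhds (by simpa using h1)))
  have e3 : ∀ᶠ ε in 𝓝[>] (0 : ℝ), ∀ a ∈ S, ∀ b ∈ S, 0 < inner ℝ v (b - a) →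
      0 < inner ℝ v (b - a) + ε * inner ℝ s (b - a) := by
    rw [eventually_all_finset]
    intro a _
    rw [eventually_all_finset]
    intro b _
    by_cases hab : 0 < inner ℝ v (b - a)
    · filter_upwards [eventually_pos_add hab (inner ℝ s (b - a))] with ε k _ using k
    · exact Eventually.of_forall fun ε k => (hab k).elim
  obtain ⟨ε, k1, k2, k3⟩ := (e1.and (e2.and e3)).exists
  have hne : v + ε • s ≠ 0 := by
    intro h0
    have : inner ℝ v (v + ε • s) = 0 := by rw [h0, inner_zero_right]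
    rw [inner_add_right, inner_smul_right, real_inner_self_eq_norm_sq] at this
    linarith
  have hN : 0 < ‖v + ε • s‖ := norm_pos_iff.mpr hne
  have hw : ‖‖v + ε • s‖⁻¹ • (v + ε • s)‖ = 1 := norm_smul_inv_norm hne
  refine ⟨p + ε • x, _, hw, fun c hc => ?_, fun a ha b hb hab => ?_⟩
  · have h1 := norm_off_le hw (p + ε • x) c (inner ℝ v (c - p) * ‖v + ε • s‖)
    have h2 : p + ε • x + (inner ℝ v (c - p) * ‖v + ε • s‖) • ‖v + ε • s‖⁻¹ • (v + ε • s) - c =
        -(off p v c - ε • (x + (inner ℝ v (c - p)) • s)) := by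
      rw [smul_smul, mul_assoc, mul_inv_cancel₀ hN.ne', mul_one, off]
      module
    rw [h2, norm_neg] at h1
    exact lt_of_le_of_lt (pow_le_pow_left₀ (norm_nonneg _) h1 2) (k2 c hc)
  · rw [inner_smul_left, inner_add_left, inner_smul_left]
    exact mul_pos (inv_pos.mpr hN) (k3 a ha b hb hab)

lemma feas_of_weak {S : Finset V} {p v : V} (hne : ∀ c ∈ S, off p v c ≠ 0) {x s : V}
    (h : ∀ c ∈ S, 0 ≤ inner ℝ (off p v c) (x + (inner ℝ v (c - p)) • s))
    (h1 : ∀ c ∈ S, ∀ c' ∈ S, inner ℝ (off p v c) (x + (inner ℝ v (c - p)) • s) = 0 →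
      inner ℝ (off p v c') (x + (inner ℝ v (c' - p)) • s) = 0 → c = c') : Feas p v S := by
  by_cases h0 : ∃ c ∈ S, inner ℝ (off p v c) (x + (inner ℝ v (c - p)) • s) = 0
  · obtain ⟨c₀, hc₀, h0⟩ := h0
    have e : ∀ᶠ ε in 𝓝[>] (0 : ℝ), ∀ c ∈ S, 0 < inner ℝ (off p v c) (x + (inner ℝ v (c - p)) • s)
        + ε * inner ℝ (off p v c) (off p v c₀) := by
      rw [eventually_all_finset]
      intro c hc
      rcases (h c hc).eq_or_lt with k | k
      · obtain rfl := h1 c hc c₀ hc₀ k.symm h0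
        filter_upwards [self_mem_nhdsWithin] with ε k2
        rw [h0, zero_add]
        exact mul_pos k2 (real_inner_self_pos.mpr (hne c hc))
      · exact eventually_pos_add k _
    obtain ⟨ε, hε⟩ := e.exists
    refine ⟨x + ε • off p v c₀, s, fun c hc => ?_⟩
    have := hε c hc
    simp only [inner_add_right, inner_smul_right] at this ⊢
    linarith
  · push Not at h0
    exact ⟨x, s, fun c hc => lt_of_le_of_ne (h c hc) (h0 c hc).symm⟩

/-- component orthogonal to two orthonormal vectors -/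
def pr (v m e : V) : V := e - (inner ℝ v e) • v - (inner ℝ m e) • m

lemma pr_sub (v m a b : V) : pr v m (a - b) = pr v m a - pr v m b := by
  simp only [pr, inner_sub_right, sub_smul]; abel

lemma inner_pr_left {v m : V} (hv : ‖v‖ = 1) (hvm : inner ℝ v m = 0) (e : V) :
    inner ℝ v (pr v m e) = 0 := by
  simp [pr, inner_sub_right, inner_smul_right, hv, hvm]

lemma inner_pr_right {v m : V} (hm : ‖m‖ = 1) (hvm : inner ℝ v m = 0) (e : V) :
    inner ℝ m (pr v m e) = 0 := by
  have : inner ℝ m v = 0 := by rw [real_inner_comm, hvm]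
  simp [pr, inner_sub_right, inner_smul_right, hm, this]

lemma normsq_pr {v m : V} (hv : ‖v‖ = 1) (hm : ‖m‖ = 1) (hvm : inner ℝ v m = 0) (e : V) :
    ‖e‖ ^ 2 = (inner ℝ v e) ^ 2 + (inner ℝ m e) ^ 2 + ‖pr v m e‖ ^ 2 := by
  have h1 := norm_perp_sq hv e
  have h2 := norm_perp_sq hm (e - (inner ℝ v e) • v)
  have h3 : inner ℝ m (e - (inner ℝ v e) • v) = inner ℝ m e := by
    rw [inner_sub_right, inner_smul_right, real_inner_comm v m, hvm]; ring
  rw [h3] at h2
  unfold pr
  linarith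

theorem pin_aux {S : Finset V} {p v q m : V} (hv : ‖v‖ = 1) (hm : ‖m‖ = 1)
    (hvm : inner ℝ v m = 0) {φ : ℝ} (hφ0 : 0 < φ) (hφ1 : φ < Real.pi) {ρ : ℝ} (hρ : 0 < ρ)
    (h : ∀ c ∈ S, ‖off p v c‖ ^ 2 = ρ)
    (h' : ∀ c ∈ S, ‖off q (Real.cos φ • v + Real.sin φ • m) c‖ ^ 2 ≤ ρ)
    (hsep : ∀ x ∈ S, ∀ y ∈ S, x ≠ y → 4 * ρ < ‖x - y‖ ^ 2)
    (hord : ∀ x ∈ S, ∀ y ∈ S, 0 < inner ℝ v (y - x) →
      0 < inner ℝ (Real.cos φ • v + Real.sin φ • m) (y - x)) : Feas p v S := by
  classical
  have hmv : inner ℝ m v = 0 := by rw [real_inner_comm, hvm]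
  have hcs := Real.sin_sq_add_cos_sq φ
  have hs := Real.sin_pos_of_pos_of_lt_pi hφ0 hφ1
  set w := Real.cos φ • v + Real.sin φ • m with hwdef
  have hiw : ∀ e, inner ℝ w e = Real.cos φ * inner ℝ v e + Real.sin φ * inner ℝ m e := by
    intro e; simp [hwdef, inner_add_left, inner_smul_left]
  have hw : ‖w‖ = 1 := by
    have : ‖w‖ ^ 2 = 1 ^ 2 := by
      rw [← real_inner_self_eq_norm_sq, hiw]
      simp only [hwdef, inner_add_right, inner_smul_right, real_inner_self_eq_norm_sq, hv, hm, hvm,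
        hmv]
      linarith
    exact (pow_left_inj₀ (norm_nonneg _) zero_le_one two_ne_zero).mp this
  set t : V → ℝ := fun c => inner ℝ v (c - p) with ht
  set a : V → ℝ := fun c => inner ℝ m (c - p) with ha
  set Y : V → V := fun c => pr v m (c - p) with hY
  set y := Y q with hy
  set z : V → ℝ := fun c => Real.cos φ * (a c - a q) - Real.sin φ * (t c - t q) with hz
  set b : V → ℝ := fun c => inner ℝ (Y c) y with hb
  have tsub : ∀ c c', inner ℝ v (c - c') = t c - t c' := fun c c' => by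
    simp only [ht, inner_sub_right]; ring
  have asub : ∀ c c', inner ℝ m (c - c') = a c - a c' := fun c c' => by
    simp only [ha, inner_sub_right]; ring
  have Ysub : ∀ c c', pr v m (c - c') = Y c - Y c' := fun c c' => by
    simp only [hY]; rw [← pr_sub]; congr 1; abel
  have hu : ∀ c, off p v c = a c • m + Y c := fun c => by
    simp only [off, ha, hY, pr]; abel
  have r1 : ∀ c ∈ S, a c ^ 2 + ‖Y c‖ ^ 2 = ρ := fun c hc => by
    have k1 := normsq_pr hv hm hvm (c - p)
    have k2 := h c hc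
    rw [off, norm_perp_sq hv] at k2
    simp only [ha, hY]
    linarith
  have r2 : ∀ c ∈ S, z c ^ 2 ≤ a c ^ 2 + 2 * b c - ‖y‖ ^ 2 := fun c hc => by
    have k1 := normsq_pr hv hm hvm (c - q)
    have k2 := h' c hc
    rw [off, norm_perp_sq hw, hiw, k1, tsub, asub, Ysub, norm_sub_sq_real] at k2
    have k3 := r1 c hc
    have k4 : (t c - t q) ^ 2 + (a c - a q) ^ 2 -
        (Real.cos φ * (t c - t q) + Real.sin φ * (a c - a q)) ^ 2 = z c ^ 2 := by
      simp only [hz]
      linear_combination (-((t c - t q) ^ 2 + (a c - a q) ^ 2)) * hcs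
    simp only [hb]
    linarith
  have tne : ∀ c ∈ S, ∀ c' ∈ S, t c = t c' → c = c' := fun c hc c' hc' e => by
    by_contra hne
    have k1 := hsep c hc c' hc' hne
    rw [normsq_sub hv p c' c, tsub, e, norm_sub_sq_real, h c hc, h c' hc'] at k1
    have k2 := sq_nonneg ‖off p v c + off p v c'‖
    rw [norm_add_sq_real, h c hc, h c' hc'] at k2
    linarith
  have pair : ∀ c ∈ S, ∀ c' ∈ S, 0 < a c → a c' < 0 →
      0 < b c / a c + b c' / (-a c') + φ * (t c - t c') := by
    intro c hc c' hc' k1 k2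
    have hne : c ≠ c' := by rintro rfl; linarith
    have o1 : 0 < (t c - t c') * ((t c - t c') * Real.cos φ + (a c + -a c') * Real.sin φ) := by
      rcases lt_trichotomy (t c - t c') 0 with k | k | k
      · have := hord c hc c' hc' (by rw [tsub]; linarith)
        rw [hiw, tsub, asub] at this
        exact mul_pos_of_neg_of_neg k (by linarith)
      · exact (hne (tne c hc c' hc' (by linarith))).elim
      · have := hord c' hc' c hc (by rw [tsub]; linarith)
        rw [hiw, tsub, asub] at this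
        exact mul_pos k (by linarith)
    have o2 : z c - z c' = (a c + -a c') * Real.cos φ - (t c - t c') * Real.sin φ := by
      simp only [hz]; ring
    rcases eq_or_ne y 0 with hy0 | hy0
    · have b1 : ∀ c, b c = 0 := fun c => by simp only [hb, hy0, inner_zero_right]
      have z1 := r2 c hc
      have z2 := r2 c' hc'
      rw [b1, hy0, norm_zero] at z1 z2
      have z3 : z c ≤ a c := (abs_le_of_sq_le_sq' (by linarith) k1.le).2
      have z4 : -(-a c') ≤ z c' := (abs_le_of_sq_le_sq' (by linarith) (by linarith)).1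
      have := pair_ineq_zero (A := a c + -a c') (by linarith) hφ0 hφ1 (by linarith) o1
      rw [b1, b1]
      simpa using this
    · have hn : 0 < ‖y‖ ^ 2 := by positivity
      refine pair_ineq k1 (by linarith) hn hφ0 hφ1 ?_ (r2 c hc) (by simpa using r2 c' hc') o2 o1
      have k3 := hsep c hc c' hc' hne
      rw [normsq_pr hv hm hvm, tsub, asub, Ysub, norm_sub_sq_real] at k3
      have k4 := norm_add_sq_real (Y c) (Y c')
      have k5 : (b c + b c') ^ 2 ≤ ‖Y c + Y c'‖ ^ 2 * ‖y‖ ^ 2 := by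
        simp only [hb]
        rw [← inner_add_left, ← mul_pow, ← sq_abs]
        exact pow_le_pow_left₀ (abs_nonneg _) (abs_real_inner_le_norm _ _) 2
      have k6 : 2 * (a c ^ 2 + a c' ^ 2) + ‖Y c + Y c'‖ ^ 2 <
          (t c - t c') ^ 2 + (a c - a c') ^ 2 := by
        linarith [r1 c hc, r1 c' hc']
      have k7 := mul_lt_mul_of_pos_left k6 hn
      nlinarith
  obtain ⟨ζ, hζ1, hζ2⟩ := Order.exists_between_finsets
    ((S.filter fun c => 0 < a c).image fun c => -(t c * φ) - b c / a c)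
    ((S.filter fun c => a c < 0).image fun c => -(t c * φ) - b c / a c) (by
      intro l hl u hu
      obtain ⟨c, hc, rfl⟩ := Finset.mem_image.mp hl
      obtain ⟨c', hc', rfl⟩ := Finset.mem_image.mp hu
      obtain ⟨hc1, hc2⟩ := Finset.mem_filter.mp hc
      obtain ⟨hc1', hc2'⟩ := Finset.mem_filter.mp hc'
      have := pair c hc1 c' hc1' hc2 hc2'
      rw [div_neg] at this
      linarith)
  have val : ∀ c, inner ℝ (off p v c) ((y + ζ • m) + (inner ℝ v (c - p)) • (φ • m)) =
      a c * (ζ + t c * φ) + b c := fun c => by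
    have k1 : inner ℝ m y = 0 := inner_pr_right hm hvm _
    have k2 : inner ℝ (Y c) m = 0 := by rw [real_inner_comm]; exact inner_pr_right hm hvm _
    rw [hu]
    simp only [inner_add_left, inner_add_right, inner_smul_left, inner_smul_right, k1, k2,
      real_inner_self_eq_norm_sq, hm, conj_trivial, hb, ht]
    ring
  have pos : ∀ c ∈ S, a c ≠ 0 → 0 < a c * (ζ + t c * φ) + b c := fun c hc k => by
    rcases lt_or_gt_of_ne k with k | k
    · have := hζ2 _ (Finset.mem_image_of_mem _ (Finset.mem_filter.mpr ⟨hc, k⟩))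
      have e : b c = a c * (b c / a c) := by field_simp
      rw [e, ← mul_add]
      exact mul_pos_of_neg_of_neg k (by linarith)
    · have := hζ1 _ (Finset.mem_image_of_mem _ (Finset.mem_filter.mpr ⟨hc, k⟩))
      have e : b c = a c * (b c / a c) := by field_simp
      rw [e, ← mul_add]
      exact mul_pos k (by linarith)
  have zer : ∀ c ∈ S, a c * (ζ + t c * φ) + b c = 0 → a c = 0 ∧ z c = 0 := fun c hc k => by
    have k1 : a c = 0 := by
      by_contra k1
      linarith [pos c hc k1]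
    have k2 := r2 c hc
    rw [k1] at k k2
    exact ⟨k1, by nlinarith [sq_nonneg ‖y‖]⟩
  refine feas_of_weak (x := y + ζ • m) (s := φ • m) (fun c hc k => ?_) (fun c hc => ?_)
    (fun c hc c' hc' k k' => ?_)
  · have := h c hc
    rw [k] at this
    simp at this
    linarith
  · rw [val]
    rcases eq_or_ne (a c) 0 with k | k
    · have k2 := r2 c hc
      rw [k] at k2 ⊢
      nlinarith [sq_nonneg ‖y‖, sq_nonneg (z c)]
    · exact (pos c hc k).le
  · rw [val] at k k'
    obtain ⟨k1, k2⟩ := zer c hc k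
    obtain ⟨k3, k4⟩ := zer c' hc' k'
    apply tne c hc c' hc'
    simp only [hz, k1, k3] at k2 k4
    have : Real.sin φ * (t c - t c') = 0 := by linarith
    linarith [(mul_eq_zero.mp this).resolve_left hs.ne']

/-- a line whose linearized system has no solution is the only transversal with its order -/
theorem pin {S : Finset V} {p v q w : V} (hv : ‖v‖ = 1) (hw : ‖w‖ = 1) {ρ : ℝ} (hρ : 0 < ρ)
    (h : ∀ c ∈ S, ‖off p v c‖ ^ 2 = ρ) (h' : ∀ c ∈ S, ‖off q w c‖ ^ 2 ≤ ρ)
    (hsep : ∀ x ∈ S, ∀ y ∈ S, x ≠ y → 4 * ρ < ‖x - y‖ ^ 2)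
    (hord : ∀ x ∈ S, ∀ y ∈ S, 0 < inner ℝ v (y - x) → 0 < inner ℝ w (y - x))
    (hf : ¬ Feas p v S) (c : V) : off q w c = off p v c := by
  set γ := inner ℝ v w with hγ
  have hσ : ‖w - γ • v‖ ^ 2 = 1 - γ ^ 2 := by rw [hγ, norm_perp_sq hv, hw]; ring
  by_cases hpar : w - γ • v = 0
  · have e1 : w = γ • v := sub_eq_zero.mp hpar
    have e2 : γ ^ 2 = 1 := by rw [hpar, norm_zero] at hσ; linarith
    have e3 : ∀ c, off q w c = off p v c - off p v q := fun c => by
      rw [off_sub, off, e1, inner_smul_left, smul_smul, conj_trivial]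
      congr 2
      linear_combination inner ℝ v (c - q) * e2
    by_cases ho : off p v q = 0
    · rw [e3, ho, sub_zero]
    · exfalso
      refine hf ⟨off p v q, 0, fun c hc => ?_⟩
      have k1 := h' c hc
      rw [e3, norm_sub_sq_real, h c hc] at k1
      have k2 : 0 < ‖off p v q‖ ^ 2 := by positivity
      rw [smul_zero, add_zero]
      linarith
  · exfalso
    have hN : 0 < ‖w - γ • v‖ := norm_pos_iff.mpr hpar
    have hγ2 : γ ^ 2 < 1 := by nlinarith
    have hγa : -1 < γ := by nlinarith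
    have hγb : γ < 1 := by nlinarith
    have c1 : Real.cos (Real.arccos γ) = γ := Real.cos_arccos hγa.le hγb.le
    have s1 : Real.sin (Real.arccos γ) = ‖w - γ • v‖ := by
      rw [Real.sin_arccos, ← hσ, Real.sqrt_sq hN.le]
    have e : Real.cos (Real.arccos γ) • v +
        Real.sin (Real.arccos γ) • (‖w - γ • v‖⁻¹ • (w - γ • v)) = w := by
      rw [c1, s1, smul_smul, mul_inv_cancel₀ hN.ne', one_smul]; abel
    refine hf (pin_aux (q := q) (m := ‖w - γ • v‖⁻¹ • (w - γ • v)) (φ := Real.arccos γ) hv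
      (norm_smul_inv_norm hpar) ?_ (Real.arccos_pos.mpr hγb) (Real.arccos_lt_pi.mpr hγa) hρ h
      (by rw [e]; exact h') hsep (by rw [e]; exact hord))
    rw [inner_smul_right, inner_sub_right, inner_smul_right, real_inner_self_eq_norm_sq, hv, hγ]
    ring

end Pool.Agent.MP_a382a5_co
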